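import Pool.Agent.H504.RV.Del
import Pool.Agent.H504.RV.Exa

/-!
# MP_100fe7_nt: reduction of the coefficient field in Deligne's conjecture

`E` is a Galois number field with group `G` and `𝒦` a nonempty set of subfields of `E`. For a motive
`M` over `ℚ` with coefficients in `E` and an integer `m` such that `L(m, M)` is invertible in `E ⊗ ℂ`,
Deligne's statement for the restrictions of coefficients `Res_{E/K} M`, `K ∈ 𝒦`, is compared with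
Deligne's statement for `M`, raised to the `k`-th power. `J (gals 𝒦)` is the left ideal of `ℤ[G]`
generated by the sums `∑_{h ∈ Gal(E/K)} h`, `K ∈ 𝒦`.
-/

set_option autoImplicit false

namespace Pool.Agent.Results.MP_100fe7_nt.CoefficientFieldReduction

open Pool.Agent.H504.CF Pool.Agent.H504.RV

theorem result (E : Type) [Field E] [NumberField E] [IsGalois ℚ E]
    (𝒦 : Set (IntermediateField ℚ E)) (hne : 𝒦.Nonempty) :
    -- Part 1: from `Res_{E/K} M`, `K ∈ 𝒦`, to `M`, if `k` lies in the ideal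
    (∀ k : ℕ, const (E ≃ₐ[ℚ] E) k ∈ J (gals 𝒦) → ∀ (M : Motive E) (m : ℤ),
      M.NonVanishing m → (∀ K ∈ 𝒦, M.Deligne K m) →
      M.DelignePow E m k ∧ (k = 1 → M.Deligne E m)) ∧
    -- Part 2: the ideal gives the exact formal exponents
    (∀ k : ℕ, Exponent 𝒦 k ↔ const (E ≃ₐ[ℚ] E) k ∈ J (gals 𝒦)) ∧
    -- Part 3: all proper subfields
    ((∀ K : IntermediateField ℚ E, K ≠ ⊤ → K ∈ 𝒦) →
      (∀ q : ℕ, HasPQ (E ≃ₐ[ℚ] E) q → const (E ≃ₐ[ℚ] E) q ∈ J (gals 𝒦)) ∧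
      (∀ q q' : ℕ, HasPQ (E ≃ₐ[ℚ] E) q → HasPQ (E ≃ₐ[ℚ] E) q' → q ≠ q' →
        const (E ≃ₐ[ℚ] E) 1 ∈ J (gals 𝒦)) ∧
      (∀ n : ℕ, 4 ≤ n → Nonempty ((E ≃ₐ[ℚ] E) ≃* Equiv.Perm (Fin n)) →
        const (E ≃ₐ[ℚ] E) 1 ∈ J (gals 𝒦))) ∧
    -- Part 4: abelian fields
    ((∀ g h : E ≃ₐ[ℚ] E, g * h = h * g) →
      ((∃ k : ℕ, 0 < k ∧ const (E ≃ₐ[ℚ] E) k ∈ J (gals 𝒦)) ↔ Covers 𝒦) ∧
      (Covers 𝒦 →
        const (E ≃ₐ[ℚ] E) (Pool.Agent.H504.CV.cexp (E ≃ₐ[ℚ] E)) ∈ J (gals 𝒦)) ∧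
      ((∀ K ∈ 𝒦, IsCyc K) → Covers 𝒦 → ∀ k : ℕ,
        (const (E ≃ₐ[ℚ] E) k ∈ J (gals 𝒦) ↔ Pool.Agent.H504.CV.cexp (E ≃ₐ[ℚ] E) ∣ k)) ∧
      (1 < Module.finrank ℚ E → ∀ k : ℕ, 0 < k →
        (const (E ≃ₐ[ℚ] E) k ∈ J (gals {K : IntermediateField ℚ E | K ≠ ⊤}) ↔
          Good (E ≃ₐ[ℚ] E) k))) := by
  refine ⟨fun k hk M m hv0 h => ⟨delignePow_of_mem hne M hv0 h hk, fun h1 => ?_⟩,
    exponent_iff_mem hne, proper, fun hcomm => ⟨(abelian hcomm).1, (abelian hcomm).2,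
      fun h1 h2 k => abelian_cyc hcomm h1 h2 k, fun hE k hk => abelian_proper hcomm hE hk⟩⟩
  subst h1
  exact deligne_of_mem hne M hv0 h (by exact_mod_cast hk)

end Pool.Agent.Results.MP_100fe7_nt.CoefficientFieldReduction
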