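import Pool.Agent.H504.MC.ThinFam

/-!
# MP_100fe7_nt: Deligne's conjecture and matrices of rank three with prescribed zeros

For `n`, `k`, `r` and a set `T` of places let `X_{T, r}` be the variety of the `n × k` matrices of
rank at most `r` whose entries outside `T` are zero (a section of a determinantal variety by a coordinate
subspace).

**Theorem.** 1. The classes of the varieties `X_{T, r}`, for all `n`, `k`, `T` and a fixed `r`, generate
the Grothendieck group of varieties, after inverting the class `L` of the line and the `L ^ j - 1`, `j ≥ 1`,
if and only if `r ≥ 3`. The same is true for the matrices of rank exactly `r`. (This is stated for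
arbitrary motivic measures, on constructible sets over `ℤ`.)

2. For `r ≤ 2` only Tate motives occur in the virtual motives of the `X_{T, r}`.

3. For every `r ≥ 3`, Deligne's conjecture is true for all motives over `ℚ` with coefficients in `E` without
`(w / 2, w / 2)`-classes if and only if it is true for the Tate twists of the simple motives that occur
in the virtual motives of the `X_{T, r}`. The same is true for the matrices of rank exactly `r`.

Proof: von Staudt's constructions translate a system of polynomial
equations into a configuration of points and lines in the plane; a configuration is a pair of sparse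
matrices `Y`, `X` with three columns resp. rows and prescribed vanishing entries of `Y X`, and a matrix of
rank three with an invertible diagonal block `D` is determined by this block, `X` and `Y D`. The matrices
of rank two with prescribed zeros are given by configurations of points on the line. The necessity of
`r ≥ 3` follows by counting the solutions of `x ^ 2 + 1 = 0` modulo the primes.
-/

set_option autoImplicit false

namespace Pool.Agent.Results.MP_100fe7_nt.DeterminantalSections

open Pool.Agent.H504.MC

theorem result :
    (∀ r : ℕ, (Generates (DetFamily r) ↔ 3 ≤ r) ∧ (Generates (RankFamily r) ↔ 3 ≤ r)) ∧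
    (∀ (Sim : Type) (𝓜 : Motives Sim) (r : ℕ), r ≤ 2 →
      𝓜.OnlyTate (DetFamily r) ∧ 𝓜.OnlyTate (RankFamily r)) ∧
    ∀ (E : Type) [Field E] [NumberField E] (Sim : Type) (𝓜 : Motives Sim) (D : Values E Sim),
      D.Additive → ∀ r : ℕ, 3 ≤ r →
        ((∀ M, D.Deligne M) ↔ 𝓜.HoldsFor (DetFamily r) D.Deligne) ∧
        ((∀ M, D.Deligne M) ↔ 𝓜.HoldsFor (RankFamily r) D.Deligne) :=
  ⟨fun r => ⟨generates_det_iff r, generates_rank_iff r⟩,
    fun _ 𝓜 _ hr => ⟨onlyTate (tate_det hr) 𝓜, onlyTate (tate_rank hr) 𝓜⟩,
    fun _ _ _ _ 𝓜 D hD _ hr => ⟨deligne_iff (generates_det hr) 𝓜 D hD,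
      deligne_iff (generates_rank hr) 𝓜 D hD⟩⟩

end Pool.Agent.Results.MP_100fe7_nt.DeterminantalSections
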