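import Pool.Agent.H504.MC.Nilp

/-!
# MP_100fe7_nt: Deligne's conjecture and nilpotent matrices with prescribed zeros

For `e`, `n` and a set `T` of places `(i, j)` with `i < j` let `N_{T, e}` be the variety of the strictly
upper triangular `n × n` matrices `A` with `A ^ e = 0` whose entries outside `T` are zero.

**Theorem.** 1. The classes of the varieties `N_{T, e}`, for all `n`, `T` and a fixed `e`, generate the
Grothendieck group of varieties, after inverting the class `L` of the line and the `L ^ j - 1`, `j ≥ 1`,
if and only if `e ≥ 2`. (This is stated for arbitrary motivic measures, on constructible sets over `ℤ`.)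

2. For every `e ≥ 2`, Deligne's conjecture is true for all motives over `ℚ` with coefficients in `E`
without `(w / 2, w / 2)`-classes if and only if it is true for the Tate twists of the simple motives that
occur in the virtual motives of the `N_{T, e}`.

Proof: for a sparse matrix `A` and sparse diagonal matrices `D` the blocks `A`, `D`, `0`, `0` give a matrix
whose power `e + 1` is zero if and only if `A ^ (e + 1) = 0` and `A ^ e D = 0`; so one can reduce to
`e = 2`. Pairs of sparse matrices `Y`, `X` with `Y X = 0` are a special case of matrices with square zero,
and they generate pairs with prescribed vanishing entries of `Y X`, that is, configurations of points and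
lines in the plane if `Y` has three columns. Then one uses von Staudt's constructions.
-/

set_option autoImplicit false

namespace Pool.Agent.Results.MP_100fe7_nt.NilpotentMatrices

open Pool.Agent.H504.MC

theorem result :
    (∀ e : ℕ, Generates (NilpotentFamily e) ↔ 2 ≤ e) ∧
    ∀ (E : Type) [Field E] [NumberField E] (Sim : Type) (𝓜 : Motives Sim) (D : Values E Sim),
      D.Additive → ∀ e : ℕ, 2 ≤ e →
        ((∀ M, D.Deligne M) ↔ 𝓜.HoldsFor (NilpotentFamily e) D.Deligne) :=
  ⟨generates_nilpotent_iff, fun _ _ _ _ 𝓜 D hD _ he => deligne_iff (generates_nilpotent he) 𝓜 D hD⟩

end Pool.Agent.Results.MP_100fe7_nt.NilpotentMatrices
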