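import Pool.Agent.H367.OS.ODic
import Pool.Graph.R_pool_sql_team_seeded_1acbe0a2.Y691.TU.Del

/-!
# Deligne's conjecture on critical values and single motives of one sequence of cubics

A relation `r` of size `m` is one of the equations `x_i x_j = x_l`, `x_i + x_j = x_l`, `x_i = 1` with
`i, j, l < m`; the relations are numbered, the number of `r` is `ν(r)` (`relNum`). Let `G_m` be the
following polynomial with integral coefficients (`univG ℤ m`). There are variables `x_i` and `z_ij` for
`i, j < m`, a variable `c_r` for every relation `r`, and variables `y_{r,l}` for all relations `r` and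
`l < (m + 1) 2 ^ ν(r)`. The equations (`eqnG`) are

  `z_ij - x_i x_j`,  `c_r ^ 2 - c_r`,  `c_r ρ_r`,  `(1 - c_r) y_{r,l}`,

where `ρ_r` is the linear polynomial `z_ij - x_l`, `x_i + x_j - x_l` or `x_i - 1` of the relation.
`G_m` is the sum of the equations multiplied by further variables `t_e`, one for each equation. It has
degree three. Let `C_m` be the affine cubic hypersurface `G_m = 1` (`cubG R m` over the ring `R`); it is
smooth over the integers.

Let `E` be a number field and `C` the category of motives for absolute Hodge cycles over `ℚ` with
coefficients in `E`, a semisimple abelian category with Tate twists `M ↦ M(a)`. For a separated scheme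
`X` of finite type over `ℚ` let `D.G w j X = Gr^W_w H^j_c(X)`, with coefficients extended to `E`, as
an object of `C`; for smooth projective `Y` it is `h^j(Y)` if `j = w`, and zero otherwise. `T` are the
Hodge numbers, the dimensions of the eigenspaces of `F_∞`, the values of the `L`-functions at integers
and Deligne's periods `c^±`. `Deligne T M` is the statement of question Q1 for the motive `M` and all
critical integers, if `M` is pure and has no classes of type `(w / 2, w / 2)` (`Admissible`).

For `m`, `N`, `i ∈ ℕ` and `t ∈ ℤ` let `e = (m + 1) N + E_m - 1` (`esh m N`), where `E_m` is the number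
of the equations, and let `V_{m,N}^i(t)` (`sgl D m N i t`) be the single motive `Gr^W_{i+2e}
H^{i+2e+1}_c(C_m)(t + e)`, which is pure of the weight `i - 2 t`.

Every pure motive `M` is a direct factor of one motive `h^i(Y)(t)`, for a smooth projective scheme `Y`
over `ℚ` (hypothesis `factors`): it is a direct factor of a sum of motives `h^{i_j}(X_j)(a_j)` of the
same weight; take for `Y` the disjoint union of the schemes `X_j × ℙ^n`. Nothing is assumed on the
`L`-functions, the periods and the Hodge numbers.

**Theorem.** (1) The dictionary for the motives (`Dictionary`). For every smooth projective `Y` over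
`ℚ`, every `d` and all large `m` there is an `e'` such that `h^i(Y)(-e')` is isomorphic to the single
piece `Gr^W_{i+2e'} H^{i+2e'+1}_c(C_m)`, for all `i ≤ d`. For every affine scheme `Spec B` of finite
type over `ℚ` and all large `m` there is an `N` such that `Gr^W_w H^j_c(Spec B)(-e)` is isomorphic to
`Gr^W_{w+2e} H^{j+2e+1}_c(C_m)`, for `0 ≤ w ≤ 2 m + 1` and all `j`; for every separated scheme `X` of
finite type over `ℚ` it is a direct factor.

(2) Every motive `M` as in question Q1 is a direct factor of one of the single motives `V_{m,N}^i(t)`,
for all large `m`, with the same `i` and `t`.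

(3) The following are equivalent: Deligne's conjecture for all direct factors of the single motives
`V_{m,N}^i(t)`, for all `N`, `i`, `t`, and infinitely many `m`; Deligne's conjecture for all motives
over `ℚ` with coefficients in `E`; the conjecture for all direct factors of all `V_{m,N}^i(t)`.

(4) For every `i` and `t` Deligne's conjecture is true for all direct factors of the motives
`h^i(Y)(t)`, `Y` smooth projective over `ℚ`, if and only if for infinitely many `m` it is true for all
direct factors of the single motives `V_{m,N}^i(t)`, for all `N`.

(5) `G_m` has integral coefficients and degree at most three, and `C_m` is smooth over all rings.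

The hypotheses on the motives are standard (`IsMot`): exact sequences, affine bundles, disjoint unions,
the cohomology of affine spaces, the weights of `H^j_c(X)` are between `0` and `2 dim X`, monomorphisms
split, `Gr^W_w H^j_c(X)` is a direct factor of `h^w(Y)` for some smooth projective `Y` (it is a
subquotient, by the weight spectral sequence), and every smooth projective scheme has an affine bundle
whose total space is affine (Jouanolou).

Idea of the proof. The projection of `C_m` to the affine space with the coordinates `x, z, c, y` is an
affine bundle over the complement of the zero set `W_m` of the equations. The scheme `W_m` is the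
disjoint union, over all sets `s` of relations (`c_r = 1` for `r ∈ s` and `c_r = 0` for the others), of
the products `X_s × 𝔸 ^ ((m + 1) N(s))`, where `X_s` is the affine scheme defined by the relations in
`s` and `N(s) = ∑_{r ∈ s} 2 ^ ν(r)`. The numbers `N(s)` are different, and the weights of the
cohomology of `X_s` are between `0` and `2 m`. So the part of weight `w + 2 (m + 1) N(s)`,
`0 ≤ w ≤ 2 m + 1`, of the cohomology of `W_m` is the twist of the part of weight `w` of the cohomology of
`X_s`, and it is different from the weight of the cohomology of the affine space. Every affine scheme of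
finite type over a prime field is an `X_s`, for all large `m`. The pieces of the cohomology of an
arbitrary scheme are direct factors of those of a disjoint union of affine schemes.

The universal system of relations is the one of helper854 (`Pool.Agent.H854.SQ`).
-/

set_option autoImplicit false

open CategoryTheory CategoryTheory.Limits AlgebraicGeometry Pool.Agent.Y116.UV Pool.Agent.Z125.UN
  Pool.Agent.Q193.LT Pool.Agent.H854.SQ Pool.Agent.H367.OS
open Pool.Agent.Y691.TU (Values Admissible Deligne)

universe v u



namespace Pool.Agent.Results.MP_100fe7_nt.OneSequenceOverTheIntegers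

/-- **Deligne's conjecture and single motives of one sequence of cubic hypersurfaces over the integers.**
See the explanations above. -/
theorem result {E : Type} [Field E] [NumberField E] {C : Type u} [Category.{v} C] [Abelian C]
    {D : Pieces ℚ C} (h : IsMot D) {T : Values E C}
    (factors : ∀ M : C, Admissible T M → ∃ (Y : Sch ℚ) (i : ℕ) (t : ℤ), SmoothProj Y ∧
      Factor M ((D.tw t).obj (D.G i i Y))) :
    Dictionary D ∧
    (∀ M : C, Admissible T M → ∃ (i : ℕ) (t : ℤ), ∀ᶠ m : ℕ in Filter.atTop, ∃ N : ℕ,
      Factor M (sgl D m N i t)) ∧
    List.TFAE [
      ∃ᶠ m : ℕ in Filter.atTop, ∀ (N i : ℕ) (t : ℤ), AllFactors (Deligne T) (sgl D m N i t),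
      ∀ M : C, Deligne T M,
      ∀ (m N i : ℕ) (t : ℤ), AllFactors (Deligne T) (sgl D m N i t)] ∧
    (∀ (i : ℕ) (t : ℤ),
      (∀ Y : Sch ℚ, SmoothProj Y → AllFactors (Deligne T) ((D.tw t).obj (D.G i i Y))) ↔
      ∃ᶠ m : ℕ in Filter.atTop, ∀ N : ℕ, AllFactors (Deligne T) (sgl D m N i t)) ∧
    ∀ m : ℕ, (univG ℤ m).totalDegree ≤ 3 ∧
      ∀ (R : Type) [CommRing R], MvPolynomial.map (Int.castRingHom R) (univG ℤ m) = univG R m ∧
        Smooth (cubG R m).hom := by
  have hk := isPrimeField_rat
  refine ⟨h.dictionary hk, ?_, ?_, h.degree_sgl hk (allFactors_closed _), cubG_facts⟩
  · intro M hM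
    obtain ⟨Y, i, t, hY, hF⟩ := factors M hM
    exact ⟨i, t, h.factor_sgl hk hY hF⟩
  · have h1 := h.all_sgl hk (Q := Deligne T) (I := fun _ _ => True) fun M hM => by
      have hA : Admissible T M := by
        by_contra hA
        exact hM fun g => absurd g hA
      obtain ⟨Y, i, t, hY, hF⟩ := factors M hA
      exact ⟨Y, i, t, hY, trivial, hF⟩
    tfae_have 1 → 2 := fun g => h1.mpr (g.mono fun m hm N i t _ => hm N i t)
    tfae_have 2 → 3 := fun g _ _ _ _ R _ => g R
    tfae_have 3 → 1 := fun g => Filter.Frequently.of_forall g
    tfae_finish

end Pool.Agent.Results.MP_100fe7_nt.OneSequenceOverTheIntegers
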